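import Pool.Agent.helper41.NU.A2
import Pool.Agent.helper69.NU.A9

set_option autoImplicit false
set_option linter.all false

/-! Module D1: the Levi inequality for `log ∑ e^{w_j} |b_j|²` (helper54). -/

open MeasureTheory Filter Topology Set
open scoped ContDiff Manifold Matrix ENNReal ComplexOrder

noncomputable section

namespace Pool.Agent.helper63.NU

namespace D1

/-! ### finite-dimensional Cauchy–Schwarz -/

theorem cs {N : ℕ} (x y : Fin N → ℂ) :
    ‖∑ i, x i * (starRingEnd ℂ) (y i)‖ ^ 2 ≤ (∑ i, ‖x i‖ ^ 2) * ∑ i, ‖y i‖ ^ 2 := by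
  have h1 : ‖∑ i, x i * (starRingEnd ℂ) (y i)‖ ≤ ∑ i, ‖x i‖ * ‖y i‖ := by
    refine (norm_sum_le _ _).trans (le_of_eq ?_)
    refine Finset.sum_congr rfl fun i _ => ?_
    rw [norm_mul, RCLike.norm_conj]
  have h2 : (∑ i, ‖x i‖ * ‖y i‖) ^ 2 ≤ (∑ i, ‖x i‖ ^ 2) * ∑ i, ‖y i‖ ^ 2 :=
    Finset.sum_mul_sq_le_sq_mul_sq _ _ _
  have h0 : 0 ≤ ‖∑ i, x i * (starRingEnd ℂ) (y i)‖ := norm_nonneg _
  calc ‖∑ i, x i * (starRingEnd ℂ) (y i)‖ ^ 2 ≤ (∑ i, ‖x i‖ * ‖y i‖) ^ 2 := by gcongr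
    _ ≤ _ := h2

/-- the algebraic heart -/
theorem alg {N : ℕ} (p q : Fin N → ℂ) (a : Fin N → ℝ) (hS : 0 < ∑ i, ‖p i‖ ^ 2) :
    let S := ∑ i, ‖p i‖ ^ 2
    let Q := ∑ i, ‖q i‖ ^ 2
    let T := ∑ i, p i * (starRingEnd ℂ) (q i)
    let m := (∑ i, a i * ‖p i‖ ^ 2) / S
    0 ≤ Q / S - ‖T‖ ^ 2 / S ^ 2 ∧
    ‖(∑ i, (a i : ℂ) * (p i * (starRingEnd ℂ) (q i))) / S - m * T / S‖ ^ 2 ≤
      ((∑ i, a i ^ 2 * ‖p i‖ ^ 2) / S - m ^ 2) * (Q / S - ‖T‖ ^ 2 / S ^ 2) := by
  intro S Q T m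
  have hS' : S ≠ 0 := hS.ne'
  have hSc : (S : ℂ) ≠ 0 := by exact_mod_cast hS'
  constructor
  · have h := cs p q
    have h' : ‖T‖ ^ 2 ≤ S * Q := h
    rw [sub_nonneg, div_le_div_iff₀ (by positivity) hS]
    nlinarith
  · -- x i = (a i - m) p i, y i = q i - c p i with c = conj T / S
    set c : ℂ := (starRingEnd ℂ) T / S with hc
    have hpp : ∀ i, p i * (starRingEnd ℂ) (p i) = ((‖p i‖ ^ 2 : ℝ) : ℂ) := by
      intro i; rw [Complex.mul_conj, Complex.normSq_eq_norm_sq]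
    have hsum0 : ∑ i, ((a i - m : ℝ) : ℂ) * (p i * (starRingEnd ℂ) (p i)) = 0 := by
      have : ∑ i, ((a i - m : ℝ) : ℂ) * (p i * (starRingEnd ℂ) (p i))
          = ((∑ i, (a i - m) * ‖p i‖ ^ 2 : ℝ) : ℂ) := by
        push_cast
        refine Finset.sum_congr rfl fun i _ => ?_
        rw [hpp i]; push_cast; ring
      rw [this]
      have h2 : ∑ i, (a i - m) * ‖p i‖ ^ 2 = 0 := by
        have : ∑ i, (a i - m) * ‖p i‖ ^ 2 = (∑ i, a i * ‖p i‖ ^ 2) - m * S := by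
          simp only [sub_mul, Finset.sum_sub_distrib, Finset.mul_sum, S]
        rw [this]
        simp only [m]
        field_simp
        ring
      rw [h2]; simp
    have key : (∑ i, (a i : ℂ) * (p i * (starRingEnd ℂ) (q i))) - m * T
        = ∑ i, (((a i - m : ℝ) : ℂ) * p i) * (starRingEnd ℂ) (q i - c * p i) := by
      have e1 : ∑ i, (((a i - m : ℝ) : ℂ) * p i) * (starRingEnd ℂ) (q i - c * p i)
          = (∑ i, (a i : ℂ) * (p i * (starRingEnd ℂ) (q i))) - m * T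
            - (starRingEnd ℂ) c * ∑ i, ((a i - m : ℝ) : ℂ) * (p i * (starRingEnd ℂ) (p i)) := by
        simp only [T, Finset.mul_sum, ← Finset.sum_sub_distrib]
        refine Finset.sum_congr rfl fun i _ => ?_
        rw [map_sub, map_mul]; push_cast; ring
      rw [e1, hsum0]; ring
    have hx : ∑ i, ‖((a i - m : ℝ) : ℂ) * p i‖ ^ 2 = ((∑ i, a i ^ 2 * ‖p i‖ ^ 2) / S - m ^ 2) * S := by
      have e1 : ∑ i, ‖((a i - m : ℝ) : ℂ) * p i‖ ^ 2
          = ∑ i, (a i ^ 2 * ‖p i‖ ^ 2 - 2 * m * (a i * ‖p i‖ ^ 2) + m ^ 2 * ‖p i‖ ^ 2) := by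
        refine Finset.sum_congr rfl fun i _ => ?_
        rw [norm_mul, mul_pow, Complex.norm_real, Real.norm_eq_abs, sq_abs]; ring
      rw [e1, Finset.sum_add_distrib, Finset.sum_sub_distrib, ← Finset.mul_sum, ← Finset.mul_sum]
      have e2 : ∑ i, a i * ‖p i‖ ^ 2 = m * S := by simp only [m]; field_simp
      rw [e2]
      change _ - _ + m ^ 2 * S = _
      field_simp
      ring
    have hy : ∑ i, ‖q i - c * p i‖ ^ 2 = (Q / S - ‖T‖ ^ 2 / S ^ 2) * S := by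
      have e0 : ∀ z : ℂ, ((‖z‖ ^ 2 : ℝ) : ℂ) = z * (starRingEnd ℂ) z := by
        intro z; rw [Complex.mul_conj, Complex.normSq_eq_norm_sq]
      have : ((∑ i, ‖q i - c * p i‖ ^ 2 : ℝ) : ℂ) = (((Q / S - ‖T‖ ^ 2 / S ^ 2) * S : ℝ) : ℂ) := by
        have e1 : ((∑ i, ‖q i - c * p i‖ ^ 2 : ℝ) : ℂ)
            = ∑ i, (q i * (starRingEnd ℂ) (q i) - c * (p i * (starRingEnd ℂ) (q i))
              - (starRingEnd ℂ) (c * (p i * (starRingEnd ℂ) (q i)))
              + c * (starRingEnd ℂ) c * (p i * (starRingEnd ℂ) (p i))) := by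
          rw [Complex.ofReal_sum]
          refine Finset.sum_congr rfl fun i _ => ?_
          rw [e0]
          simp only [map_sub, map_mul, Complex.conj_conj]
          ring
        rw [e1, Finset.sum_add_distrib, Finset.sum_sub_distrib, Finset.sum_sub_distrib,
          ← map_sum, ← Finset.mul_sum, ← Finset.mul_sum]
        have e2 : ∑ i, q i * (starRingEnd ℂ) (q i) = (Q : ℂ) := by
          simp only [Q]; rw [Complex.ofReal_sum]
          exact Finset.sum_congr rfl fun i _ => (e0 _).symm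
        have e3 : ∑ i, p i * (starRingEnd ℂ) (p i) = (S : ℂ) := by
          simp only [S]; rw [Complex.ofReal_sum]
          exact Finset.sum_congr rfl fun i _ => (e0 _).symm
        rw [e2, e3]
        change (Q : ℂ) - c * T - (starRingEnd ℂ) (c * T) + c * (starRingEnd ℂ) c * S = _
        have e4 : (((Q / S - ‖T‖ ^ 2 / S ^ 2) * S : ℝ) : ℂ)
            = (Q : ℂ) - T * (starRingEnd ℂ) T / S := by
          rw [← e0 T]
          push_cast
          field_simp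
        rw [e4, hc]
        simp only [map_mul, map_div₀, Complex.conj_conj, Complex.conj_ofReal]
        field_simp
        ring
      exact_mod_cast this
    have hfin := cs (fun i => ((a i - m : ℝ) : ℂ) * p i) (fun i => q i - c * p i)
    rw [← key, hx, hy] at hfin
    have e5 : (∑ i, (a i : ℂ) * (p i * (starRingEnd ℂ) (q i))) / S - m * T / S
        = ((∑ i, (a i : ℂ) * (p i * (starRingEnd ℂ) (q i))) - m * T) / S := by ring
    rw [e5, norm_div, div_pow, Complex.norm_real, Real.norm_eq_abs, sq_abs,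
      div_le_iff₀ (by positivity)]
    calc _ ≤ _ := hfin
      _ = _ := by ring

/-! ### derivatives -/

variable {n N : ℕ} {U : Set (E n)}

/-- the sum `∑ x_i e^{w_i} b_i conj b_i` -/
def A (b : Fin N → E n → ℂ) (w x : Fin N → ℝ) (z : E n) : ℝ :=
  ∑ j, x j * (Real.exp (w j) * ‖b j z‖ ^ 2)

theorem A_cast (b : Fin N → E n → ℂ) (w x : Fin N → ℝ) :
    (fun z => ((A b w x z : ℝ) : ℂ))
      = fun z => ∑ j, ((x j * Real.exp (w j) : ℝ) : ℂ) * (b j z * (starRingEnd ℂ) (b j z)) := by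
  funext z
  unfold A
  rw [Complex.ofReal_sum]
  refine Finset.sum_congr rfl fun j _ => ?_
  rw [Complex.mul_conj, Complex.normSq_eq_norm_sq]; push_cast; ring

theorem Sw_eq_A (b : Fin N → E n → ℂ) (w : Fin N → ℝ) (z : E n) :
    Sw b w z = A b w (fun _ => 1) z := by
  unfold Sw A; simp

theorem diffA (hU : IsOpen U) {b : Fin N → E n → ℂ}
    (hb : ∀ j, DifferentiableOn ℂ (b j) U) (w x : Fin N → ℝ) {z : E n} (hz : z ∈ U) :
    DifferentiableAt ℝ (A b w x) z := by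
  have hb' : ∀ j, DifferentiableAt ℝ (b j) z := fun j =>
    ((hb j).differentiableAt (hU.mem_nhds hz)).restrictScalars ℝ
  unfold A
  have h2 : ∀ j, DifferentiableAt ℝ (fun z => x j * (Real.exp (w j) * ‖b j z‖ ^ 2)) z := by
    intro j
    have : DifferentiableAt ℝ (fun z => ‖b j z‖ ^ 2) z := (hb' j).norm_sq ℝ
    exact (this.const_mul _).const_mul _
  have := DifferentiableAt.fun_sum (u := Finset.univ) (fun j _ => h2 j)
  exact this

theorem diffc {b : E n → ℂ} {z : E n} (h : DifferentiableAt ℝ b z) :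
    DifferentiableAt ℝ (fun z => (starRingEnd ℂ) (b z)) z := by
  have : DifferentiableAt ℝ (fun w : ℂ => (starRingEnd ℂ) w) (b z) :=
    Complex.conjCLE.differentiableAt
  exact this.comp z h

theorem db_A (hU : IsOpen U) {b : Fin N → E n → ℂ}
    (hb : ∀ j, DifferentiableOn ℂ (b j) U) (w x : Fin N → ℝ) {z : E n} (hz : z ∈ U) (k : Fin n) :
    db k (fun z => ((A b w x z : ℝ) : ℂ)) z
      = ∑ j, ((x j * Real.exp (w j) : ℝ) : ℂ) * (b j z * (starRingEnd ℂ) (dz k (b j) z)) := by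
  have hb0 : ∀ j, DifferentiableAt ℂ (b j) z := fun j => (hb j).differentiableAt (hU.mem_nhds hz)
  have hb' : ∀ j, DifferentiableAt ℝ (b j) z := fun j => (hb0 j).restrictScalars ℝ
  rw [A_cast, db_sum]
  · refine Finset.sum_congr rfl fun j _ => ?_
    rw [db_const_mul, db_mul (hb' j) (diffc (hb' j)), db_hol (hb0 j), db_conj]
    ring
  · intro j _
    exact ((hb' j).mul (diffc (hb' j))).const_mul _

theorem dz_A (hU : IsOpen U) {b : Fin N → E n → ℂ}
    (hb : ∀ j, DifferentiableOn ℂ (b j) U) (w x : Fin N → ℝ) {z : E n} (hz : z ∈ U) (k : Fin n) :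
    dz k (fun z => ((A b w x z : ℝ) : ℂ)) z
      = ∑ j, ((x j * Real.exp (w j) : ℝ) : ℂ) * (dz k (b j) z * (starRingEnd ℂ) (b j z)) := by
  have hb0 : ∀ j, DifferentiableAt ℂ (b j) z := fun j => (hb j).differentiableAt (hU.mem_nhds hz)
  have hb' : ∀ j, DifferentiableAt ℝ (b j) z := fun j => (hb0 j).restrictScalars ℝ
  rw [A_cast, dz_sum]
  · refine Finset.sum_congr rfl fun j _ => ?_
    rw [dz_const_mul, dz_mul (hb' j) (diffc (hb' j)), dz_conj, db_hol (hb0 j)]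
    simp
  · intro j _
    exact ((hb' j).mul (diffc (hb' j))).const_mul _

theorem dz_db_A (hU : IsOpen U) {b : Fin N → E n → ℂ}
    (hb : ∀ j, DifferentiableOn ℂ (b j) U) (w x : Fin N → ℝ) {z : E n} (hz : z ∈ U) (j k : Fin n) :
    dz j (db k (fun z => ((A b w x z : ℝ) : ℂ))) z
      = ∑ i, ((x i * Real.exp (w i) : ℝ) : ℂ) *
          (dz j (b i) z * (starRingEnd ℂ) (dz k (b i) z)) := by
  have hb0 : ∀ i, DifferentiableAt ℂ (b i) z := fun i => (hb i).differentiableAt (hU.mem_nhds hz)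
  have hb' : ∀ i, DifferentiableAt ℝ (b i) z := fun i => (hb0 i).restrictScalars ℝ
  have hd0 : ∀ i, DifferentiableAt ℂ (dz k (b i)) z := fun i =>
    (A9aux.hol_dz hU (hb i) k).differentiableAt (hU.mem_nhds hz)
  have hd' : ∀ i, DifferentiableAt ℝ (dz k (b i)) z := fun i => (hd0 i).restrictScalars ℝ
  have hev : (db k (fun z => ((A b w x z : ℝ) : ℂ))) =ᶠ[𝓝 z]
      fun z => ∑ i, ((x i * Real.exp (w i) : ℝ) : ℂ) * (b i z * (starRingEnd ℂ) (dz k (b i) z)) := by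
    filter_upwards [hU.mem_nhds hz] with z' hz'
    exact db_A hU hb w x hz' k
  rw [dz_congr hev, dz_sum]
  · refine Finset.sum_congr rfl fun i _ => ?_
    rw [dz_const_mul, dz_mul (hb' i) (diffc (hd' i)), dz_conj, db_hol (hd0 i)]
    simp
  · intro i _
    exact ((hb' i).mul (diffc (hd' i))).const_mul _

theorem db_inv {ψ : E n → ℝ} {y : E n} (h0 : ψ y ≠ 0) (hψ : DifferentiableAt ℝ ψ y) (j : Fin n) :
    db j (fun z => (((ψ z)⁻¹ : ℝ) : ℂ)) y
      = -((((ψ y) ^ 2)⁻¹ : ℝ) : ℂ) * db j (fun z => ((ψ z : ℝ) : ℂ)) y := by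
  have := db_real_comp (g := fun t : ℝ => t⁻¹) (ψ := ψ) (y := y)
    (differentiableAt_inv h0) hψ j
  rw [this, deriv_inv]; push_cast; ring

theorem dz_inv {ψ : E n → ℝ} {y : E n} (h0 : ψ y ≠ 0) (hψ : DifferentiableAt ℝ ψ y) (j : Fin n) :
    dz j (fun z => (((ψ z)⁻¹ : ℝ) : ℂ)) y
      = -((((ψ y) ^ 2)⁻¹ : ℝ) : ℂ) * dz j (fun z => ((ψ z : ℝ) : ℂ)) y := by
  have := dz_real_comp (g := fun t : ℝ => t⁻¹) (ψ := ψ) (y := y)
    (differentiableAt_inv h0) hψ j
  rw [this, deriv_inv]; push_cast; ring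

theorem lev_log {ψ : E n → ℝ} {U : Set (E n)} (hU : IsOpen U) (hψ : ∀ z ∈ U, DifferentiableAt ℝ ψ z)
    {y : E n} (hy : y ∈ U) (h0 : 0 < ψ y)
    (hd : ∀ k, DifferentiableAt ℝ (db k (fun z => ((ψ z : ℝ) : ℂ))) y) (j k : Fin n) :
    lev (fun z => Real.log (ψ z)) y j k
      = ((ψ y : ℝ) : ℂ)⁻¹ * dz j (db k (fun z => ((ψ z : ℝ) : ℂ))) y
        - (((ψ y : ℝ) : ℂ) ^ 2)⁻¹ * (dz j (fun z => ((ψ z : ℝ) : ℂ)) y
            * db k (fun z => ((ψ z : ℝ) : ℂ)) y) := by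
  have hcont : ContinuousAt ψ y := (hψ y hy).continuousAt
  have hpos : ∀ᶠ z in 𝓝 y, 0 < ψ z := hcont.eventually (lt_mem_nhds h0)
  have hev : (db k (fun z => ((Real.log (ψ z) : ℝ) : ℂ))) =ᶠ[𝓝 y]
      fun z => (((ψ z)⁻¹ : ℝ) : ℂ) * db k (fun z => ((ψ z : ℝ) : ℂ)) z := by
    filter_upwards [hpos, hU.mem_nhds hy] with z hz hz'
    have := db_real_comp (g := Real.log) (ψ := ψ) (y := z)
      (Real.differentiableAt_log hz.ne') (hψ z hz') k
    rw [this, Real.deriv_log]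
  have h1 : DifferentiableAt ℝ (fun z => (((ψ z)⁻¹ : ℝ) : ℂ)) y := by
    have : DifferentiableAt ℝ (fun z => (ψ z)⁻¹) y := (hψ y hy).inv h0.ne'
    exact Complex.ofRealCLM.differentiableAt.comp y this
  change dz j (db k (fun z => ((Real.log (ψ z) : ℝ) : ℂ))) y = _
  rw [dz_congr hev, dz_mul h1 (hd k), dz_inv h0.ne' (hψ y hy)]
  push_cast
  ring

end D1

open D1 in
theorem levi_ineq {n N : ℕ} {U : Set (E n)} (hU : IsOpen U) {b : Fin N → E n → ℂ}
    (hb : ∀ j, DifferentiableOn ℂ (b j) U) {w a : Fin N → ℝ} {y : E n} (hy : y ∈ U)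
    (hS : 0 < Sw b w y) (v : Fin n → ℂ) :
    0 ≤ (∑ j, ∑ k, lev (fun z => Real.log (Sw b w z)) y j k * v j * (starRingEnd ℂ) (v k)).re ∧
    ‖∑ k, db k (fun z => ((m1 b w a z : ℝ) : ℂ)) y * (starRingEnd ℂ) (v k)‖ ^ 2
      ≤ (m1 b w (fun j => a j ^ 2) y - m1 b w a y ^ 2) *
        (∑ j, ∑ k, lev (fun z => Real.log (Sw b w z)) y j k * v j * (starRingEnd ℂ) (v k)).re := by
  have hSA : (Sw b w) = A b w (fun _ => 1) := funext fun z => Sw_eq_A b w z
  have hb0 : ∀ i, DifferentiableAt ℂ (b i) y := fun i => (hb i).differentiableAt (hU.mem_nhds hy)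
  have hb' : ∀ i, DifferentiableAt ℝ (b i) y := fun i => (hb0 i).restrictScalars ℝ
  set r : Fin N → ℝ := fun i => Real.sqrt (Real.exp (w i)) with hr
  have hr2 : ∀ i, r i ^ 2 = Real.exp (w i) := fun i => Real.sq_sqrt (Real.exp_pos _).le
  have hr2c : ∀ i, ((r i : ℝ) : ℂ) * (r i : ℂ) = ((Real.exp (w i) : ℝ) : ℂ) := fun i => by
    rw [← hr2 i]; push_cast; ring
  set d : Fin N → ℂ := fun i => ∑ j, dz j (b i) y * v j with hd
  set p : Fin N → ℂ := fun i => (r i : ℂ) * b i y with hp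
  set q : Fin N → ℂ := fun i => (r i : ℂ) * d i with hq
  have hnp : ∀ i, ‖p i‖ ^ 2 = Real.exp (w i) * ‖b i y‖ ^ 2 := by
    intro i
    simp only [hp]
    rw [norm_mul, mul_pow, Complex.norm_real, Real.norm_eq_abs, sq_abs, hr2]
  have hnq : ∀ i, ‖q i‖ ^ 2 = Real.exp (w i) * ‖d i‖ ^ 2 := by
    intro i
    simp only [hq]
    rw [norm_mul, mul_pow, Complex.norm_real, Real.norm_eq_abs, sq_abs, hr2]
  have hAx : ∀ x : Fin N → ℝ, A b w x y = ∑ i, x i * ‖p i‖ ^ 2 := by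
    intro x
    unfold A
    exact Finset.sum_congr rfl fun i _ => by rw [hnp]
  have hSp : Sw b w y = ∑ i, ‖p i‖ ^ 2 := by
    rw [Sw_eq_A, hAx]; simp
  -- contraction of `db`
  have hdbA : ∀ x : Fin N → ℝ, ∑ k, db k (fun z => ((A b w x z : ℝ) : ℂ)) y * (starRingEnd ℂ) (v k)
      = ∑ i, (x i : ℂ) * (p i * (starRingEnd ℂ) (q i)) := by
    intro x
    have : ∀ k, db k (fun z => ((A b w x z : ℝ) : ℂ)) y * (starRingEnd ℂ) (v k)
        = ∑ i, ((x i * Real.exp (w i) : ℝ) : ℂ) *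
            (b i y * ((starRingEnd ℂ) (dz k (b i) y * v k))) := by
      intro k
      rw [db_A hU hb w x hy, Finset.sum_mul]
      exact Finset.sum_congr rfl fun i _ => by rw [map_mul]; ring
    simp only [this]
    rw [Finset.sum_comm]
    refine Finset.sum_congr rfl fun i _ => ?_
    rw [← Finset.mul_sum, ← Finset.mul_sum, ← map_sum]
    simp only [hp, hq, hd, map_mul, Complex.conj_ofReal]
    rw [Complex.ofReal_mul, ← hr2c i]
    ring
  have hdzA : ∀ x : Fin N → ℝ, ∑ k, dz k (fun z => ((A b w x z : ℝ) : ℂ)) y * (v k)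
      = ∑ i, (x i : ℂ) * (q i * (starRingEnd ℂ) (p i)) := by
    intro x
    have : ∀ k, dz k (fun z => ((A b w x z : ℝ) : ℂ)) y * (v k)
        = ∑ i, ((x i * Real.exp (w i) : ℝ) : ℂ) *
            ((dz k (b i) y * v k) * ((starRingEnd ℂ) (b i y))) := by
      intro k
      rw [dz_A hU hb w x hy, Finset.sum_mul]
      exact Finset.sum_congr rfl fun i _ => by ring
    simp only [this]
    rw [Finset.sum_comm]
    refine Finset.sum_congr rfl fun i _ => ?_
    rw [← Finset.mul_sum, ← Finset.sum_mul]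
    simp only [hp, hq, hd, map_mul, Complex.conj_ofReal]
    rw [Complex.ofReal_mul, ← hr2c i]
    ring
  have hddA : ∑ j, ∑ k, dz j (db k (fun z => ((A b w (fun _ => 1) z : ℝ) : ℂ))) y
      * v j * (starRingEnd ℂ) (v k) = ((∑ i, ‖q i‖ ^ 2 : ℝ) : ℂ) := by
    have h1 : ∀ j k, dz j (db k (fun z => ((A b w (fun _ => 1) z : ℝ) : ℂ))) y
      * v j * (starRingEnd ℂ) (v k) = ∑ i, ((Real.exp (w i) : ℝ) : ℂ) *
        ((dz j (b i) y * v j) * (starRingEnd ℂ) (dz k (b i) y * v k)) := by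
      intro j k
      rw [dz_db_A hU hb w _ hy, Finset.sum_mul, Finset.sum_mul]
      refine Finset.sum_congr rfl fun i _ => ?_
      rw [map_mul]; simp only [one_mul]; ring
    simp only [h1]
    have h2 : ∀ j, ∑ k, ∑ i, ((Real.exp (w i) : ℝ) : ℂ) *
        ((dz j (b i) y * v j) * (starRingEnd ℂ) (dz k (b i) y * v k))
        = ∑ i, ((Real.exp (w i) : ℝ) : ℂ) * ((dz j (b i) y * v j) * (starRingEnd ℂ) (d i)) := by
      intro j
      rw [Finset.sum_comm]
      refine Finset.sum_congr rfl fun i _ => ?_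
      rw [← Finset.mul_sum, ← Finset.mul_sum, ← map_sum]
    simp only [h2]
    rw [Finset.sum_comm, Complex.ofReal_sum]
    refine Finset.sum_congr rfl fun i _ => ?_
    rw [← Finset.mul_sum, ← Finset.sum_mul, hnq i]
    change _ * (d i * _) = _
    rw [Complex.mul_conj, Complex.normSq_eq_norm_sq]; push_cast; ring
  -- the Levi form
  have hddiff : ∀ k, DifferentiableAt ℝ (db k (fun z => ((A b w (fun _ => 1) z : ℝ) : ℂ))) y := by
    intro k
    have hev : (db k (fun z => ((A b w (fun _ => 1) z : ℝ) : ℂ))) =ᶠ[𝓝 y]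
        fun z => ∑ i, (((1:ℝ) * Real.exp (w i) : ℝ) : ℂ) *
          (b i z * (starRingEnd ℂ) (dz k (b i) z)) := by
      filter_upwards [hU.mem_nhds hy] with z' hz'
      exact db_A hU hb w _ hz' k
    refine DifferentiableAt.congr_of_eventuallyEq ?_ hev
    have hd' : ∀ i, DifferentiableAt ℝ (dz k (b i)) y := fun i =>
      ((A9aux.hol_dz hU (hb i) k).differentiableAt (hU.mem_nhds hy)).restrictScalars ℝ
    have := DifferentiableAt.fun_sum (u := Finset.univ) (fun i (_ : i ∈ Finset.univ) =>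
      ((hb' i).mul (diffc (hd' i))).const_mul (((1:ℝ) * Real.exp (w i) : ℝ) : ℂ))
    exact this
  have hS' : 0 < A b w (fun _ => 1) y := by rw [← Sw_eq_A]; exact hS
  have hlev : ∑ j, ∑ k, lev (fun z => Real.log (Sw b w z)) y j k * v j * (starRingEnd ℂ) (v k)
      = (((∑ i, ‖q i‖ ^ 2) / (∑ i, ‖p i‖ ^ 2)
          - ‖∑ i, p i * (starRingEnd ℂ) (q i)‖ ^ 2 / (∑ i, ‖p i‖ ^ 2) ^ 2 : ℝ) : ℂ) := by
    have h1 : ∀ j k, lev (fun z => Real.log (Sw b w z)) y j k * v j * (starRingEnd ℂ) (v k)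
        = ((A b w (fun _ => 1) y : ℝ) : ℂ)⁻¹ *
            (dz j (db k (fun z => ((A b w (fun _ => 1) z : ℝ) : ℂ))) y * v j * (starRingEnd ℂ) (v k))
          - (((A b w (fun _ => 1) y : ℝ) : ℂ) ^ 2)⁻¹ *
            ((dz j (fun z => ((A b w (fun _ => 1) z : ℝ) : ℂ)) y * v j) *
              (db k (fun z => ((A b w (fun _ => 1) z : ℝ) : ℂ)) y * (starRingEnd ℂ) (v k))) := by
      intro j k
      rw [hSA, lev_log hU (fun z hz => diffA hU hb w _ hz) hy hS' hddiff]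
      ring
    simp only [h1, Finset.sum_sub_distrib, ← Finset.mul_sum]
    rw [← Finset.sum_mul, hddA, hdbA, hdzA]
    have hT : ∑ i, (((fun _ => 1 : Fin N → ℝ) i : ℝ) : ℂ) * (p i * (starRingEnd ℂ) (q i))
        = ∑ i, p i * (starRingEnd ℂ) (q i) := by simp
    have hT' : ∑ i, (((fun _ => 1 : Fin N → ℝ) i : ℝ) : ℂ) * (q i * (starRingEnd ℂ) (p i))
        = (starRingEnd ℂ) (∑ i, p i * (starRingEnd ℂ) (q i)) := by
      rw [map_sum]
      refine Finset.sum_congr rfl fun i _ => ?_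
      have e9 : (starRingEnd ℂ) (p i * (starRingEnd ℂ) (q i))
          = (starRingEnd ℂ) (p i) * q i := by rw [map_mul, Complex.conj_conj]
      rw [e9]; push_cast; ring
    rw [hT, hT', ← Sw_eq_A, hSp]
    have e0 : ∀ z : ℂ, (starRingEnd ℂ) z * z = ((‖z‖ ^ 2 : ℝ) : ℂ) := by
      intro z; rw [mul_comm, Complex.mul_conj, Complex.normSq_eq_norm_sq]
    rw [e0]
    push_cast
    ring
  have hmain := alg p q a (by rw [← hSp]; exact hS)
  simp only at hmain
  rw [hlev, Complex.ofReal_re]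
  refine ⟨hmain.1, ?_⟩
  have hm1 : ∀ x : Fin N → ℝ, m1 b w x y = (∑ i, x i * ‖p i‖ ^ 2) / ∑ i, ‖p i‖ ^ 2 := by
    intro x
    have : m1 b w x y = A b w x y / Sw b w y := rfl
    rw [this, hAx, hSp]
  rw [hm1, hm1]
  have hdbm : ∑ k, db k (fun z => ((m1 b w a z : ℝ) : ℂ)) y * (starRingEnd ℂ) (v k)
      = (∑ i, (a i : ℂ) * (p i * (starRingEnd ℂ) (q i))) / ((∑ i, ‖p i‖ ^ 2 : ℝ) : ℂ)
        - (((∑ i, a i * ‖p i‖ ^ 2) / (∑ i, ‖p i‖ ^ 2) : ℝ) : ℂ) *
          (∑ i, p i * (starRingEnd ℂ) (q i)) / ((∑ i, ‖p i‖ ^ 2 : ℝ) : ℂ) := by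
    have h1 : ∀ k, db k (fun z => ((m1 b w a z : ℝ) : ℂ)) y * (starRingEnd ℂ) (v k)
        = ((A b w (fun _ => 1) y : ℝ) : ℂ)⁻¹ *
            (db k (fun z => ((A b w a z : ℝ) : ℂ)) y * (starRingEnd ℂ) (v k))
          - (((A b w (fun _ => 1) y : ℝ) : ℂ) ^ 2)⁻¹ * ((A b w a y : ℝ) : ℂ) *
              (db k (fun z => ((A b w (fun _ => 1) z : ℝ) : ℂ)) y * (starRingEnd ℂ) (v k)) := by
      intro k
      have e1 : (fun z => ((m1 b w a z : ℝ) : ℂ))
          = fun z => ((A b w a z : ℝ) : ℂ) * (((A b w (fun _ => 1) z)⁻¹ : ℝ) : ℂ) := by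
        funext z
        have : m1 b w a z = A b w a z / Sw b w z := rfl
        rw [this, Sw_eq_A, div_eq_mul_inv]; push_cast; rfl
      have hA1 : DifferentiableAt ℝ (fun z => ((A b w a z : ℝ) : ℂ)) y :=
        Complex.ofRealCLM.differentiableAt.comp y (diffA hU hb w a hy)
      have hA2 : DifferentiableAt ℝ (fun z => (((A b w (fun _ => 1) z)⁻¹ : ℝ) : ℂ)) y :=
        Complex.ofRealCLM.differentiableAt.comp y ((diffA hU hb w (fun _ => 1) hy).inv hS'.ne')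
      rw [e1, db_mul hA1 hA2, db_inv hS'.ne' (diffA hU hb w _ hy)]
      push_cast
      ring
    simp only [h1, Finset.sum_sub_distrib, ← Finset.mul_sum]
    rw [hdbA, hdbA]
    have hT : ∑ i, (((fun _ => 1 : Fin N → ℝ) i : ℝ) : ℂ) * (p i * (starRingEnd ℂ) (q i))
        = ∑ i, p i * (starRingEnd ℂ) (q i) := by simp
    rw [hT, ← Sw_eq_A, hSp, hAx]
    push_cast
    ring
  rw [hdbm]
  exact hmain.2

end Pool.Agent.helper63.NU
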